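import Pool.Agent.Lib.MP_d26497_an.AllDims

/-!
# MP_d26497_an : compact resolvents of Fock-space Toeplitz operators with polynomial symbols

Full negative answer to Q1, in every dimension `n ≥ 1`.

The measure `mu n` on `ℂⁿ` (density `gw z = e^{-|z|²}`) is defined in
`Pool.Agent.Lib.MP_d26497_an.Fock`; `symb`, `IsResolvent` and `HasCompactResolvent` are defined in
`Pool.Agent.Lib.MP_d26497_an.Toeplitz`.
-/

open MeasureTheory Complex Filter
open scoped Topology

namespace Pool.Agent.Results.MP_d26497_an.CompactResolventNotStable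

open Pool.Agent.Lib.MP_d26497_an

/-- The Hilbert space `L²(μ)`. -/
def L2 (n : ℕ) : Type := Lp ℂ 2 (mu n)

/-- The usual norm of `L²(μ)`. -/
noncomputable instance (n : ℕ) : NormedAddCommGroup (L2 n) :=
  (Lp.instNormedAddCommGroup : NormedAddCommGroup (Lp ℂ 2 (mu n)))

/-- The usual inner product of `L²(μ)`. -/
noncomputable instance (n : ℕ) : InnerProductSpace ℂ (L2 n) :=
  (L2.innerProductSpace : InnerProductSpace ℂ (Lp ℂ 2 (mu n)))

/-- A function representing the class `f ∈ L²(ν)`, for a measure `ν`. -/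
noncomputable def lpFun {X : Type} [MeasurableSpace X] (ν : Measure X) (f : Lp ℂ 2 ν) : X → ℂ :=
  f

/-- A function representing the class `f ∈ L²(μ)`. -/
noncomputable def rep {n : ℕ} (f : L2 n) : (Fin n → ℂ) → ℂ := lpFun (mu n) f

/-- The class in `L²(μ)` of a square integrable function. -/
noncomputable def cls {n : ℕ} (g : (Fin n → ℂ) → ℂ) (hg : MemLp g 2 (mu n)) : L2 n :=
  hg.toLp g

theorem H2_add {n : ℕ} {a b : L2 n}
    (ha : ∃ g : (Fin n → ℂ) → ℂ, Differentiable ℂ g ∧ rep a =ᵐ[mu n] g)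
    (hb : ∃ g : (Fin n → ℂ) → ℂ, Differentiable ℂ g ∧ rep b =ᵐ[mu n] g) :
    ∃ g : (Fin n → ℂ) → ℂ, Differentiable ℂ g ∧ rep (a + b) =ᵐ[mu n] g :=
  (Fock n).add_mem' ha hb

theorem H2_zero {n : ℕ} :
    ∃ g : (Fin n → ℂ) → ℂ, Differentiable ℂ g ∧ rep (0 : L2 n) =ᵐ[mu n] g :=
  (Fock n).zero_mem'

theorem H2_smul {n : ℕ} (c : ℂ) {a : L2 n}
    (ha : ∃ g : (Fin n → ℂ) → ℂ, Differentiable ℂ g ∧ rep a =ᵐ[mu n] g) :
    ∃ g : (Fin n → ℂ) → ℂ, Differentiable ℂ g ∧ rep (c • a) =ᵐ[mu n] g :=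
  (Fock n).smul_mem' c ha

/-- The Bargmann-Segal space `H²(μ)`: the subspace of `L²(μ)` consisting of (the classes of) the
entire functions on `ℂⁿ`. -/
def H2 (n : ℕ) : Submodule ℂ (L2 n) where
  carrier := {f | ∃ g : (Fin n → ℂ) → ℂ, Differentiable ℂ g ∧ rep f =ᵐ[mu n] g}
  add_mem' := H2_add
  zero_mem' := H2_zero
  smul_mem' := H2_smul

/-- `H²(μ)` is complete, so that the orthogonal projection onto it exists. -/
theorem hasProj (n : ℕ) : (H2 n).HasOrthogonalProjection :=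
  (inferInstance : (Fock n).HasOrthogonalProjection)

instance (n : ℕ) : (H2 n).HasOrthogonalProjection := hasProj n

/-- The Bargmann-Segal space `H²(μ)` as a Hilbert space in its own right. -/
def HH (n : ℕ) : Type := H2 n

/-- The norm of `H²(μ)`, that of `L²(μ)`. -/
noncomputable instance (n : ℕ) : NormedAddCommGroup (HH n) :=
  (Submodule.normedAddCommGroup (H2 n) : NormedAddCommGroup (H2 n))

/-- The inner product of `H²(μ)`, that of `L²(μ)`. -/
noncomputable instance (n : ℕ) : InnerProductSpace ℂ (HH n) :=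
  (Submodule.innerProductSpace (H2 n) : InnerProductSpace ℂ (H2 n))

/-- A function representing `f ∈ H²(μ)`. -/
noncomputable def fn {n : ℕ} (f : HH n) : (Fin n → ℂ) → ℂ :=
  rep (show H2 n from f).1

/-- The orthogonal projection onto a subspace `K` of a complex inner product space. -/
noncomputable def projOnto {E : Type} [NormedAddCommGroup E] [InnerProductSpace ℂ E]
    (K : Submodule ℂ E) [K.HasOrthogonalProjection] (f : E) : K :=
  K.orthogonalProjectionOnto f

/-- The orthogonal projection `P` of `L²(μ)` onto `H²(μ)`. -/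
noncomputable def P {n : ℕ} (f : L2 n) : HH n := projOnto (H2 n) f

theorem dom_add {n : ℕ} {φ : (Fin n → ℂ) → ℂ} {a b : HH n}
    (ha : MemLp (fun z => φ z * fn a z) 2 (mu n)) (hb : MemLp (fun z => φ z * fn b z) 2 (mu n)) :
    MemLp (fun z => φ z * fn (a + b) z) 2 (mu n) :=
  (tdom φ).add_mem' ha hb

theorem dom_zero {n : ℕ} {φ : (Fin n → ℂ) → ℂ} :
    MemLp (fun z => φ z * fn (0 : HH n) z) 2 (mu n) :=
  (tdom φ).zero_mem'

theorem dom_smul {n : ℕ} {φ : (Fin n → ℂ) → ℂ} (c : ℂ) {a : HH n}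
    (ha : MemLp (fun z => φ z * fn a z) 2 (mu n)) :
    MemLp (fun z => φ z * fn (c • a) z) 2 (mu n) :=
  (tdom φ).smul_mem' c ha

/-- The domain `D(T_φ) = {f ∈ H²(μ) : φ f ∈ L²(μ)}`. -/
def dom {n : ℕ} (φ : (Fin n → ℂ) → ℂ) : Submodule ℂ (HH n) where
  carrier := {f | MemLp (fun z => φ z * fn f z) 2 (mu n)}
  add_mem' := dom_add
  zero_mem' := dom_zero
  smul_mem' := dom_smul

/-- The function `T_φ f = P(φ f)` on `D(T_φ)`. -/
noncomputable def Tfun {n : ℕ} (φ : (Fin n → ℂ) → ℂ) (f : dom φ) : HH n :=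
  P (cls (fun z => φ z * fn f.1 z) f.2)

theorem Tfun_add {n : ℕ} (φ : (Fin n → ℂ) → ℂ) (a b : dom φ) :
    Tfun φ (a + b) = Tfun φ a + Tfun φ b :=
  (toeplitz φ).toFun.map_add' a b

theorem Tfun_smul {n : ℕ} (φ : (Fin n → ℂ) → ℂ) (c : ℂ) (a : dom φ) :
    Tfun φ (c • a) = c • Tfun φ a :=
  (toeplitz φ).toFun.map_smul' c a

/-- The Toeplitz operator `T_φ f = P(φ f)`, with domain `D(T_φ)`. -/
noncomputable def T {n : ℕ} (φ : (Fin n → ℂ) → ℂ) : HH n →ₗ.[ℂ] HH n where
  domain := dom φ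
  toFun := IsLinearMap.mk' (Tfun φ) ⟨Tfun_add φ, Tfun_smul φ⟩

/-- The operator `A` is closable. -/
def Closable {E : Type*} [NormedAddCommGroup E] [NormedSpace ℂ E] (A : E →ₗ.[ℂ] E) : Prop :=
  A.IsClosable

/-- The closure of the operator `A` has compact resolvent. -/
def ClosureHasCompactResolvent {E : Type*} [NormedAddCommGroup E] [NormedSpace ℂ E]
    (A : E →ₗ.[ℂ] E) : Prop :=
  HasCompactResolvent A.closure

/-- In every dimension `n ≥ 1` there are `N ≥ 1`, a homogeneous polynomial `ψ` of degree `N` in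
`z, conj z` and a polynomial `φ₁` of degree at most `N - 1` such that the closure of `T_ψ` has
compact resolvent while the closure of `T_{ψ + φ₁}` does not. -/
theorem result (n : ℕ) (hn : 1 ≤ n) :
    ∃ (N : ℕ) (ψ φ₁ : MvPolynomial (Fin n ⊕ Fin n) ℂ),
      1 ≤ N ∧ ψ.IsHomogeneous N ∧ φ₁.totalDegree ≤ N - 1 ∧
      Closable (T (symb ψ)) ∧ Closable (T (symb (ψ + φ₁))) ∧
      ClosureHasCompactResolvent (T (symb ψ)) ∧
      ¬ ClosureHasCompactResolvent (T (symb (ψ + φ₁))) :=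
  all_dims n hn

end Pool.Agent.Results.MP_d26497_an.CompactResolventNotStable
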